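import Mathlib
import Pool.Agent.H29.Queens3

set_option autoImplicit false

namespace Pool.Agent.Results.MP_70387e_co.NonRegular

open Pool.Agent.H29.Queens3

theorem result : ∃ n : ℕ, 1 ≤ n ∧ ∃ S : Finset (Fin 3 → ℤ), IsSolution n S ∧ ¬ IsRegular n S :=
  ⟨121, by norm_num, _, sol 121 rfl, notReg 121 rfl⟩

end Pool.Agent.Results.MP_70387e_co.NonRegular
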